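import Mathlib

namespace Pool.Agent.Results.MP_269329_co.SignedWalks

open Finset

/-- The vertex `j(t)` of the walk `x` from `-n`. A walk is given by the list of its steps; `k : Fin m`
codes the step `2(k+1)`. -/
def vertex (n : ℕ) {m : ℕ} (x : List (Fin m)) (t : ℕ) : ℤ :=
  -(n : ℤ) + ((x.take t).map (fun k : Fin m => 2 * ((k.1 : ℤ) + 1))).sum

/-- The set `X_n^+` of admissible positive walks from `-n` to `n` with steps in `{2,4,…,2m}`. -/
def X (m n : ℕ) : Set (List (Fin m)) :=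
  {x | x ≠ [] ∧ vertex n x x.length = n ∧
    ∀ t, 1 ≤ t → t < x.length → vertex n x t ≠ n ∧ vertex n x t ≠ -n}

/-- The weight `h(x)`; `z k` is `V(2(k+1))`. -/
noncomputable def h (n : ℕ) {m : ℕ} (z : Fin m → ℂ) (x : List (Fin m)) : ℂ :=
  (∏ t ∈ Finset.Ico 1 x.length, ((n : ℂ) ^ 2 - (vertex n x t : ℂ) ^ 2)⁻¹) * (x.map z).prod

/-- The sum `A_n(z)` of the absolute values of the weights. -/
noncomputable def A {m : ℕ} (n : ℕ) (z : Fin m → ℂ) : ℝ := ∑ᶠ x ∈ X m n, ‖h n z x‖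

/-- The sum `S_n(z)` of the weights. -/
noncomputable def S {m : ℕ} (n : ℕ) (z : Fin m → ℂ) : ℂ := ∑ᶠ x ∈ X m n, h n z x

/-- The set `W` of all `z` for which there is no constant `C` with `A_n(z) ≤ C |S_n(z)|` for
all `n`. -/
def W (m : ℕ) : Set (Fin m → ℂ) := {z | ¬ ∃ C : ℝ, ∀ n : ℕ, A n z ≤ C * ‖S n z‖}

/-! ### Path sums -/

section general
variable {R : Type*} [CommRing R]

/-- sum over paths with `N` steps from `u` to `u + L` -/
def PN (z : Fin 3 → R) (w : ℕ → R) : ℕ → ℕ → ℕ → R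
  | 0, L, _ => if L = 0 then 1 else 0
  | N + 1, L, u => ∑ k : Fin 3, if k.1 + 1 ≤ L then
      z k * w (u + (k.1 + 1)) * PN z w N (L - (k.1 + 1)) (u + (k.1 + 1)) else 0

/-- sum over paths from `u` to `u + L` -/
def P (z : Fin 3 → R) (w : ℕ → R) (L u : ℕ) : R := ∑ N ∈ Finset.range (L + 1), PN z w N L u

variable (z : Fin 3 → R) (w : ℕ → R)

lemma PN_zero_of_lt : ∀ (N L u : ℕ), L < N → PN z w N L u = 0 := by
  intro N
  induction N with
  | zero => intro L u h; omega
  | succ N ih =>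
    intro L u h
    rw [PN]
    apply Finset.sum_eq_zero
    intro k _
    split_ifs with h1
    · rw [ih _ _ (by omega), mul_zero]
    · rfl

lemma PN_zero_of_gt : ∀ (N L u : ℕ), 3 * N < L → PN z w N L u = 0 := by
  intro N
  induction N with
  | zero => intro L u h; rw [PN, if_neg (by omega)]
  | succ N ih =>
    intro L u h
    rw [PN]
    apply Finset.sum_eq_zero
    intro k _
    split_ifs with h1
    · have := k.2
      rw [ih _ _ (by omega), mul_zero]
    · rfl

lemma P_rec (L u : ℕ) : P z w L u = (if L = 0 then 1 else 0) +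
    ∑ k : Fin 3, if k.1 + 1 ≤ L then
      z k * w (u + (k.1 + 1)) * P z w (L - (k.1 + 1)) (u + (k.1 + 1)) else 0 := by
  unfold P
  rw [Finset.sum_range_succ']
  rw [add_comm]
  congr 1
  simp only [PN]
  rw [Finset.sum_comm]
  apply Finset.sum_congr rfl
  intro k _
  by_cases hk : k.1 + 1 ≤ L
  · simp only [if_pos hk]
    rw [Finset.mul_sum]
    symm
    apply Finset.sum_subset
    · intro a ha; rw [Finset.mem_range] at *; omega
    · intro a _ ha
      rw [Finset.mem_range] at ha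
      rw [PN_zero_of_lt z w a _ _ (by omega), mul_zero]
  · simp only [if_neg hk, Finset.sum_const_zero]

/-- sum over paths from `u` to `v`, zero for `u > v` -/
def f (v u : ℕ) : R := if u ≤ v then P z w (v - u) u else 0

lemma f_gt {v u : ℕ} (h : v < u) : f z w v u = 0 := by
  unfold f; rw [if_neg (by omega)]

lemma f_rec (v u : ℕ) (huv : u ≤ v) : f z w v u = (if u = v then 1 else 0) +
    ∑ k : Fin 3, z k * w (u + (k.1 + 1)) * f z w v (u + (k.1 + 1)) := by
  unfold f
  rw [if_pos huv, P_rec]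
  congr 1
  · by_cases h : u = v
    · rw [if_pos (by omega), if_pos h]
    · rw [if_neg (by omega), if_neg h]
  · apply Finset.sum_congr rfl
    intro k _
    by_cases hk : k.1 + 1 ≤ v - u
    · rw [if_pos hk, if_pos (by omega), Nat.sub_sub]
    · rw [if_neg hk, if_neg (by omega), mul_zero]

/-- contribution of the crossings of the cut `c` from `c - 1 - i` -/
def Bc (v c : ℕ) (i : Fin 3) : R := ∑ k : Fin 3, if i.1 ≤ k.1 then
  z k * w (c - 1 - i.1 + (k.1 + 1)) * f z w v (c - 1 - i.1 + (k.1 + 1)) else 0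

lemma split (v c : ℕ) (hcv : c ≤ v) (hc : 3 ≤ c) : ∀ d u : ℕ, u + d + 1 = c →
    f z w v u = ∑ i : Fin 3, f z w (c - 1 - i.1) u * Bc z w v c i := by
  intro d
  induction d using Nat.strong_induction_on with
  | _ d ih =>
    intro u hu
    rw [f_rec z w v u (by omega), if_neg (by omega), zero_add]
    -- expand the right-hand side
    have h1 : ∀ i : Fin 3, f z w (c - 1 - i.1) u = (if u = c - 1 - i.1 then 1 else 0) +
        ∑ k : Fin 3, z k * w (u + (k.1 + 1)) * f z w (c - 1 - i.1) (u + (k.1 + 1)) := by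
      intro i
      by_cases hi : u ≤ c - 1 - i.1
      · exact f_rec z w _ u hi
      · rw [f_gt z w (by omega), if_neg (by omega), zero_add]
        symm
        apply Finset.sum_eq_zero
        intro k _
        rw [f_gt z w (by omega), mul_zero]
    have h2 : ∑ i : Fin 3, f z w (c - 1 - i.1) u * Bc z w v c i =
        ∑ i : Fin 3, (if u = c - 1 - i.1 then 1 else 0) * Bc z w v c i +
        ∑ k : Fin 3, z k * w (u + (k.1 + 1)) *
          ∑ i : Fin 3, f z w (c - 1 - i.1) (u + (k.1 + 1)) * Bc z w v c i := by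
      have : ∀ i : Fin 3, f z w (c - 1 - i.1) u * Bc z w v c i =
          (if u = c - 1 - i.1 then 1 else 0) * Bc z w v c i +
          ∑ k : Fin 3, z k * w (u + (k.1 + 1)) *
            (f z w (c - 1 - i.1) (u + (k.1 + 1)) * Bc z w v c i) := by
        intro i
        rw [h1 i, add_mul, Finset.sum_mul]
        congr 1
        apply Finset.sum_congr rfl
        intro k _
        ring
      rw [Finset.sum_congr rfl (fun i _ => this i), Finset.sum_add_distrib, Finset.sum_comm]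
      congr 1
      apply Finset.sum_congr rfl
      intro k _
      rw [Finset.mul_sum]
    rw [h2]
    -- the crossing terms
    have h3 : ∑ i : Fin 3, (if u = c - 1 - i.1 then (1 : R) else 0) * Bc z w v c i =
        ∑ k : Fin 3, if c ≤ u + (k.1 + 1) then
          z k * w (u + (k.1 + 1)) * f z w v (u + (k.1 + 1)) else 0 := by
      by_cases hd : d < 3
      · rw [Finset.sum_eq_single (⟨d, hd⟩ : Fin 3)]
        · have hud : u = c - 1 - d := by omega
          rw [if_pos (by simpa using hud), one_mul]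
          unfold Bc
          apply Finset.sum_congr rfl
          intro k _
          simp only
          rw [← hud]
          by_cases hk : d ≤ k.1
          · rw [if_pos hk, if_pos (by omega)]
          · rw [if_neg hk, if_neg (by omega)]
        · intro i _ hi
          rw [if_neg, zero_mul]
          intro h
          apply hi
          apply Fin.ext
          simp only
          have := i.2
          omega
        · intro h; exact absurd (Finset.mem_univ _) h
      · rw [Finset.sum_eq_zero, Finset.sum_eq_zero]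
        · intro k _
          have := k.2
          rw [if_neg (by omega)]
        · intro i _
          have := i.2
          rw [if_neg (by omega), zero_mul]
    rw [h3, ← Finset.sum_add_distrib]
    apply Finset.sum_congr rfl
    intro k _
    by_cases hk : c ≤ u + (k.1 + 1)
    · rw [if_pos hk]
      have : ∑ i : Fin 3, f z w (c - 1 - i.1) (u + (k.1 + 1)) * Bc z w v c i = 0 := by
        apply Finset.sum_eq_zero
        intro i _
        rw [f_gt z w (by omega), zero_mul]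
      rw [this, mul_zero, add_zero]
    · rw [if_neg hk, zero_add, ih (d - (k.1 + 1)) (by omega) (u + (k.1 + 1)) (by omega)]

end general

/-! ### Real and complex path sums -/

section compare
variable (z : Fin 3 → ℂ) (w : ℕ → ℝ)

/-- complex version -/
noncomputable def fC : ℕ → ℕ → ℂ := f z (fun p => (w p : ℂ))
/-- real version -/
noncomputable def fR : ℕ → ℕ → ℝ := f (fun k => ‖z k‖) w

lemma norm_PN_le (hw : ∀ p, 0 ≤ w p) : ∀ N L u,
    ‖PN z (fun p => (w p : ℂ)) N L u‖ ≤ PN (fun k => ‖z k‖) w N L u := by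
  intro N
  induction N with
  | zero =>
    intro L u
    rw [PN, PN]
    split_ifs <;> simp
  | succ N ih =>
    intro L u
    rw [PN, PN]
    refine (norm_sum_le _ _).trans (Finset.sum_le_sum ?_)
    intro k _
    split_ifs with hk
    · rw [norm_mul, norm_mul, Complex.norm_real, Real.norm_of_nonneg (hw _)]
      exact mul_le_mul_of_nonneg_left (ih _ _) (mul_nonneg (norm_nonneg _) (hw _))
    · simp

lemma PN_nonneg {r : Fin 3 → ℝ} (hr : ∀ k, 0 ≤ r k) (hw : ∀ p, 0 ≤ w p) : ∀ N L u,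
    0 ≤ PN r w N L u := by
  intro N
  induction N with
  | zero => intro L u; rw [PN]; split_ifs <;> norm_num
  | succ N ih =>
    intro L u
    rw [PN]
    apply Finset.sum_nonneg
    intro k _
    split_ifs
    · exact mul_nonneg (mul_nonneg (hr k) (hw _)) (ih _ _)
    · exact le_rfl

lemma norm_P_le (hw : ∀ p, 0 ≤ w p) (L u : ℕ) :
    ‖P z (fun p => (w p : ℂ)) L u‖ ≤ P (fun k => ‖z k‖) w L u := by
  unfold P
  exact (norm_sum_le _ _).trans (Finset.sum_le_sum (fun N _ => norm_PN_le z w hw N L u))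

lemma fR_nonneg (hw : ∀ p, 0 ≤ w p) (v u : ℕ) : 0 ≤ fR z w v u := by
  unfold fR f
  split_ifs
  · exact Finset.sum_nonneg (fun N _ => PN_nonneg w (fun k => norm_nonneg _) hw N _ _)
  · exact le_rfl

lemma norm_fC_le (hw : ∀ p, 0 ≤ w p) (v u : ℕ) : ‖fC z w v u‖ ≤ fR z w v u := by
  unfold fC fR f
  split_ifs
  · exact norm_P_le z w hw _ _
  · simp

/-- One cut. -/
lemma cut_step (hw : ∀ p, 0 ≤ w p) (v c u : ℕ) (hcv : c ≤ v) (hc : 3 ≤ c) (huc : u < c)
    (α β : ℝ) (hα : 0 ≤ α)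
    (h1 : ∀ i : Fin 3, ‖fC z w (c - 1 - i.1) u‖ ≤ α * fR z w (c - 1 - i.1) u)
    (h2 : ∀ p, c ≤ p → p ≤ c + 2 → ‖fC z w v p‖ ≤ β * fR z w v p) :
    ‖fC z w v u‖ ≤ α * β * fR z w v u := by
  have e1 := split z (fun p => (w p : ℂ)) v c hcv hc (c - u - 1) u (by omega)
  have e2 := split (fun k => ‖z k‖) w v c hcv hc (c - u - 1) u (by omega)
  have hB : ∀ i : Fin 3, ‖Bc z (fun p => (w p : ℂ)) v c i‖ ≤ β * Bc (fun k => ‖z k‖) w v c i := by
    intro i
    unfold Bc
    rw [Finset.mul_sum]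
    refine (norm_sum_le _ _).trans (Finset.sum_le_sum ?_)
    intro k _
    split_ifs with hk
    · rw [norm_mul, norm_mul, Complex.norm_real, Real.norm_of_nonneg (hw _)]
      have := h2 (c - 1 - i.1 + (k.1 + 1)) (by omega) (by have := k.2; omega)
      calc ‖z k‖ * w (c - 1 - i.1 + (k.1 + 1)) *
          ‖f z (fun p => (w p : ℂ)) v (c - 1 - i.1 + (k.1 + 1))‖
          ≤ ‖z k‖ * w (c - 1 - i.1 + (k.1 + 1)) * (β * f (fun k => ‖z k‖) w v
            (c - 1 - i.1 + (k.1 + 1))) :=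
            mul_le_mul_of_nonneg_left this (mul_nonneg (norm_nonneg _) (hw _))
        _ = _ := by ring
    · simp
  unfold fC fR at *
  rw [e1, e2, Finset.mul_sum]
  refine (norm_sum_le _ _).trans (Finset.sum_le_sum ?_)
  intro i _
  rw [norm_mul]
  calc ‖f z (fun p => (w p : ℂ)) (c - 1 - i.1) u‖ * ‖Bc z (fun p => (w p : ℂ)) v c i‖
      ≤ (α * f (fun k => ‖z k‖) w (c - 1 - i.1) u) * (β * Bc (fun k => ‖z k‖) w v c i) :=
        mul_le_mul (h1 i) (hB i) (norm_nonneg _) (mul_nonneg hα (fR_nonneg z w hw _ _))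
    _ = _ := by ring

/-- propagation to the left -/
lemma prop_left (hw : ∀ p, 0 ≤ w p) (v c : ℕ) (hcv : c ≤ v) (β : ℝ)
    (h2 : ∀ p, c ≤ p → p ≤ c + 2 → ‖fC z w v p‖ ≤ β * fR z w v p) :
    ∀ d u, u + d = c → ‖fC z w v u‖ ≤ β * fR z w v u := by
  intro d
  induction d using Nat.strong_induction_on with
  | _ d ih =>
    intro u hu
    rcases Nat.eq_zero_or_pos d with h0 | h0
    · exact h2 u (by omega) (by omega)
    have e1 := f_rec z (fun p => (w p : ℂ)) v u (by omega)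
    have e2 := f_rec (fun k => ‖z k‖) w v u (by omega)
    rw [if_neg (by omega), zero_add] at e1 e2
    unfold fC fR at *
    rw [e1, e2, Finset.mul_sum]
    refine (norm_sum_le _ _).trans (Finset.sum_le_sum ?_)
    intro k _
    have hk : ‖f z (fun p => (w p : ℂ)) v (u + (k.1 + 1))‖ ≤
        β * f (fun k => ‖z k‖) w v (u + (k.1 + 1)) := by
      rcases Nat.lt_or_ge (u + (k.1 + 1)) c with h | h
      · exact ih (d - (k.1 + 1)) (by omega) _ (by omega)
      · exact h2 _ h (by have := k.2; omega)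
    rw [norm_mul, norm_mul, Complex.norm_real, Real.norm_of_nonneg (hw _)]
    calc ‖z k‖ * w (u + (k.1 + 1)) * ‖f z (fun p => (w p : ℂ)) v (u + (k.1 + 1))‖
        ≤ ‖z k‖ * w (u + (k.1 + 1)) * (β * f (fun k => ‖z k‖) w v (u + (k.1 + 1))) :=
          mul_le_mul_of_nonneg_left hk (mul_nonneg (norm_nonneg _) (hw _))
      _ = _ := by ring

end compare

/-! ### Estimates in one block -/

section block

lemma mono_of_step {w : ℕ → ℝ} {lo hi : ℕ} (hm : ∀ p, lo ≤ p → p < hi → w p ≤ w (p + 1)) :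
    ∀ d p, lo ≤ p → p + d ≤ hi → w p ≤ w (p + d) := by
  intro d
  induction d with
  | zero => intro p _ _; exact le_rfl
  | succ d ih =>
    intro p h1 h2
    exact (ih p h1 (by omega)).trans (hm (p + d) (by omega) (by omega))

lemma upper (r : Fin 3 → ℝ) (w : ℕ → ℝ) (hr : ∀ k, 0 ≤ r k) (hw : ∀ p, 0 ≤ w p) (y : ℝ)
    (hy : 0 ≤ y) (lo hi : ℕ) (hm : ∀ p, lo ≤ p → p < hi → w p ≤ w (p + 1)) :
    ∀ N L u, lo ≤ u → u + 3 * N ≤ hi → L ≤ 3 * N →
      y ^ (3 * N - L) * PN r w N L u ≤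
        (r 2 + r 1 * y + r 0 * y ^ 2) ^ N * ∏ t ∈ Finset.range N, w (u + 3 * (t + 1)) := by
  intro N
  induction N with
  | zero =>
    intro L u _ _ hL
    have : L = 0 := by omega
    subst this
    simp [PN]
  | succ N ih =>
    intro L u hu hhi hL
    set G : ℝ := r 2 + r 1 * y + r 0 * y ^ 2 with hG
    have hG0 : 0 ≤ G := by
      have h0 := hr 0; have h1 := hr 1; have h2 := hr 2
      positivity
    have hprod : ∏ t ∈ Finset.range (N + 1), w (u + 3 * (t + 1)) =
        w (u + 3) * ∏ t ∈ Finset.range N, w (u + 3 + 3 * (t + 1)) := by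
      rw [Finset.prod_range_succ', mul_comm]
      congr 1
      apply Finset.prod_congr rfl
      intro t _
      congr 1
      ring
    set Pd : ℝ := ∏ t ∈ Finset.range N, w (u + 3 + 3 * (t + 1)) with hPd
    have hPd0 : 0 ≤ Pd := Finset.prod_nonneg (fun t _ => hw _)
    have key : ∀ k : Fin 3, y ^ (3 * (N + 1) - L) * (if k.1 + 1 ≤ L then
        r k * w (u + (k.1 + 1)) * PN r w N (L - (k.1 + 1)) (u + (k.1 + 1)) else 0) ≤
        r k * y ^ (2 - k.1) * (w (u + 3) * (G ^ N * Pd)) := by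
      intro k
      have hk3 := k.2
      have hRHS : 0 ≤ r k * y ^ (2 - k.1) * (w (u + 3) * (G ^ N * Pd)) :=
        mul_nonneg (mul_nonneg (hr k) (pow_nonneg hy _))
          (mul_nonneg (hw _) (mul_nonneg (pow_nonneg hG0 _) hPd0))
      by_cases hk : k.1 + 1 ≤ L
      · rw [if_pos hk]
        by_cases hgt : 3 * N < L - (k.1 + 1)
        · rw [PN_zero_of_gt r w N _ _ hgt, mul_zero, mul_zero]
          exact hRHS
        · have h1 := ih (L - (k.1 + 1)) (u + (k.1 + 1)) (by omega) (by omega) (by omega)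
          have e1 : 3 * (N + 1) - L = (2 - k.1) + (3 * N - (L - (k.1 + 1))) := by omega
          have h2 : w (u + (k.1 + 1)) ≤ w (u + 3) := by
            have := mono_of_step hm (2 - k.1) (u + (k.1 + 1)) (by omega) (by omega)
            have e : u + (k.1 + 1) + (2 - k.1) = u + 3 := by omega
            rwa [e] at this
          have h3 : ∏ t ∈ Finset.range N, w (u + (k.1 + 1) + 3 * (t + 1)) ≤ Pd := by
            apply Finset.prod_le_prod (fun t _ => hw _)
            intro t ht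
            rw [Finset.mem_range] at ht
            have := mono_of_step hm (2 - k.1) (u + (k.1 + 1) + 3 * (t + 1)) (by omega) (by omega)
            have e : u + (k.1 + 1) + 3 * (t + 1) + (2 - k.1) = u + 3 + 3 * (t + 1) := by omega
            rwa [e] at this
          rw [e1, pow_add]
          calc y ^ (2 - k.1) * y ^ (3 * N - (L - (k.1 + 1))) * (r k * w (u + (k.1 + 1)) *
                PN r w N (L - (k.1 + 1)) (u + (k.1 + 1)))
              = (r k * y ^ (2 - k.1)) * (w (u + (k.1 + 1)) * (y ^ (3 * N - (L - (k.1 + 1))) *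
                PN r w N (L - (k.1 + 1)) (u + (k.1 + 1)))) := by ring
            _ ≤ (r k * y ^ (2 - k.1)) * (w (u + 3) * (G ^ N * Pd)) := by
                apply mul_le_mul_of_nonneg_left _ (mul_nonneg (hr k) (pow_nonneg hy _))
                apply mul_le_mul h2 _ _ (hw _)
                · exact h1.trans (mul_le_mul_of_nonneg_left h3 (pow_nonneg hG0 _))
                · exact mul_nonneg (pow_nonneg hy _) (PN_nonneg w hr hw _ _ _)
      · rw [if_neg hk, mul_zero]; exact hRHS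
    rw [PN, Finset.mul_sum, hprod]
    refine (Finset.sum_le_sum (fun k _ => key k)).trans (le_of_eq ?_)
    rw [← Finset.sum_mul, Fin.sum_univ_three]
    have e0 : r 0 * y ^ (2 - ((0 : Fin 3) : ℕ)) + r 1 * y ^ (2 - ((1 : Fin 3) : ℕ)) +
        r 2 * y ^ (2 - ((2 : Fin 3) : ℕ)) = G := by
      rw [hG]
      have a0 : 2 - ((0 : Fin 3) : ℕ) = 2 := rfl
      have a1 : 2 - ((1 : Fin 3) : ℕ) = 1 := rfl
      have a2 : 2 - ((2 : Fin 3) : ℕ) = 0 := rfl
      rw [a0, a1, a2]; ring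
    rw [e0, pow_succ]; ring

/-- sum over words with `N` letters, `a` of them `2` and the others `3` -/
def cc (w : ℕ → ℝ) : ℕ → ℕ → ℕ → ℝ
  | 0, a, _ => if a = 0 then 1 else 0
  | N + 1, 0, u => w (u + 3) * cc w N 0 (u + 3)
  | N + 1, a + 1, u => w (u + 2) * cc w N a (u + 2) + w (u + 3) * cc w N (a + 1) (u + 3)

lemma cc_zero (w : ℕ → ℝ) : ∀ N a u, N < a → cc w N a u = 0 := by
  intro N
  induction N with
  | zero => intro a u h; rw [cc, if_neg (by omega)]
  | succ N ih =>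
    intro a u h
    cases a with
    | zero => omega
    | succ a => rw [cc, ih a _ (by omega), ih (a + 1) _ (by omega)]; simp

lemma lower (w : ℕ → ℝ) (hw : ∀ p, 0 ≤ w p) (lam : ℝ) (h0 : 0 ≤ lam) (h1 : lam ≤ 1)
    (lo hi : ℕ) (hm : ∀ p, lo ≤ p → p < hi → lam * w (p + 1) ≤ w p) :
    ∀ N a u, lo ≤ u → u + 3 * N ≤ hi →
      (N.choose a : ℝ) * lam ^ (a * N) * ∏ t ∈ Finset.range N, w (u + 3 * (t + 1)) ≤
        cc w N a u := by
  intro N
  induction N with
  | zero =>
    intro a u _ _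
    cases a with
    | zero => simp [cc]
    | succ a => simp [cc]
  | succ N ih =>
    intro a u hu hhi
    have hprod : ∏ t ∈ Finset.range (N + 1), w (u + 3 * (t + 1)) =
        w (u + 3) * ∏ t ∈ Finset.range N, w (u + 3 + 3 * (t + 1)) := by
      rw [Finset.prod_range_succ', mul_comm]
      congr 1
      apply Finset.prod_congr rfl
      intro t _
      congr 1
      ring
    set Pd : ℝ := ∏ t ∈ Finset.range N, w (u + 3 + 3 * (t + 1)) with hPd
    have hPd0 : 0 ≤ Pd := Finset.prod_nonneg (fun t _ => hw _)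
    rw [hprod]
    cases a with
    | zero =>
      have h2 := ih 0 (u + 3) (by omega) (by omega)
      rw [cc]
      simp only [Nat.choose_zero_right, Nat.cast_one, zero_mul, pow_zero, mul_one, one_mul] at h2 ⊢
      exact mul_le_mul_of_nonneg_left h2 (hw _)
    | succ a =>
      have h2 := ih a (u + 2) (by omega) (by omega)
      have h3 := ih (a + 1) (u + 3) (by omega) (by omega)
      rw [cc]
      have h4 : lam ^ N * Pd ≤ ∏ t ∈ Finset.range N, w (u + 2 + 3 * (t + 1)) := by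
        have e : lam ^ N * Pd = ∏ t ∈ Finset.range N, (lam * w (u + 3 + 3 * (t + 1))) := by
          rw [Finset.prod_mul_distrib, Finset.prod_const, Finset.card_range]
        rw [e]
        apply Finset.prod_le_prod (fun t _ => mul_nonneg h0 (hw _))
        intro t ht
        rw [Finset.mem_range] at ht
        have := hm (u + 2 + 3 * (t + 1)) (by omega) (by omega)
        have e2 : u + 2 + 3 * (t + 1) + 1 = u + 3 + 3 * (t + 1) := by ring
        rwa [e2] at this
      have h5 : lam * w (u + 3) ≤ w (u + 2) := hm (u + 2) (by omega) (by omega)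
      have h6 : (N.choose a : ℝ) * lam ^ ((a + 1) * (N + 1)) * (w (u + 3) * Pd) ≤
          w (u + 2) * cc w N a (u + 2) := by
        calc (N.choose a : ℝ) * lam ^ ((a + 1) * (N + 1)) * (w (u + 3) * Pd)
            ≤ (N.choose a : ℝ) * lam ^ (1 + (a * N + N)) * (w (u + 3) * Pd) := by
              apply mul_le_mul_of_nonneg_right _ (mul_nonneg (hw _) hPd0)
              apply mul_le_mul_of_nonneg_left _ (Nat.cast_nonneg _)
              apply pow_le_pow_of_le_one h0 h1
              have : (a + 1) * (N + 1) = a * N + N + a + 1 := by ring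
              omega
          _ = (lam * w (u + 3)) * ((N.choose a : ℝ) * lam ^ (a * N) * (lam ^ N * Pd)) := by
              rw [pow_add, pow_add]; ring
          _ ≤ w (u + 2) * ((N.choose a : ℝ) * lam ^ (a * N) *
              ∏ t ∈ Finset.range N, w (u + 2 + 3 * (t + 1))) := by
              apply mul_le_mul h5 _ _ (hw _)
              · exact mul_le_mul_of_nonneg_left h4
                  (mul_nonneg (Nat.cast_nonneg _) (pow_nonneg h0 _))
              · exact mul_nonneg (mul_nonneg (Nat.cast_nonneg _) (pow_nonneg h0 _))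
                  (mul_nonneg (pow_nonneg h0 _) hPd0)
          _ ≤ w (u + 2) * cc w N a (u + 2) := mul_le_mul_of_nonneg_left h2 (hw _)
      have h7 : (N.choose (a + 1) : ℝ) * lam ^ ((a + 1) * (N + 1)) * (w (u + 3) * Pd) ≤
          w (u + 3) * cc w N (a + 1) (u + 3) := by
        calc (N.choose (a + 1) : ℝ) * lam ^ ((a + 1) * (N + 1)) * (w (u + 3) * Pd)
            ≤ (N.choose (a + 1) : ℝ) * lam ^ ((a + 1) * N) * (w (u + 3) * Pd) := by
              apply mul_le_mul_of_nonneg_right _ (mul_nonneg (hw _) hPd0)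
              apply mul_le_mul_of_nonneg_left _ (Nat.cast_nonneg _)
              apply pow_le_pow_of_le_one h0 h1
              exact Nat.mul_le_mul_left _ (by omega)
          _ = w (u + 3) * ((N.choose (a + 1) : ℝ) * lam ^ ((a + 1) * N) * Pd) := by ring
          _ ≤ _ := mul_le_mul_of_nonneg_left h3 (hw _)
      rw [Nat.choose_succ_succ' N a]
      push_cast
      calc ((N.choose a : ℝ) + (N.choose (a + 1) : ℝ)) * lam ^ ((a + 1) * (N + 1)) *
            (w (u + 3) * Pd) = (N.choose a : ℝ) * lam ^ ((a + 1) * (N + 1)) * (w (u + 3) * Pd) +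
            (N.choose (a + 1) : ℝ) * lam ^ ((a + 1) * (N + 1)) * (w (u + 3) * Pd) := by ring
        _ ≤ _ := add_le_add h6 h7

lemma cc_nonneg (w : ℕ → ℝ) (hw : ∀ p, 0 ≤ w p) : ∀ N a u, 0 ≤ cc w N a u := by
  intro N
  induction N with
  | zero => intro a u; rw [cc]; split_ifs <;> norm_num
  | succ N ih =>
    intro a u
    cases a with
    | zero => rw [cc]; exact mul_nonneg (hw _) (ih _ _)
    | succ a => rw [cc]; exact add_nonneg (mul_nonneg (hw _) (ih _ _)) (mul_nonneg (hw _) (ih _ _))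

lemma diff (z : Fin 3 → ℂ) (w : ℕ → ℝ) (hw : ∀ p, 0 ≤ w p) : ∀ N a u, a ≤ N →
    ‖PN z (fun p => (w p : ℂ)) N (3 * N - a) u - z 1 ^ a * z 2 ^ (N - a) * (cc w N a u : ℂ)‖ ≤
      PN (fun k => ‖z k‖) w N (3 * N - a) u - ‖z 1‖ ^ a * ‖z 2‖ ^ (N - a) * cc w N a u := by
  intro N
  induction N with
  | zero =>
    intro a u ha
    have : a = 0 := by omega
    subst this
    simp [PN, cc]
  | succ N ih =>
    intro a u ha
    have v0 : ((0 : Fin 3) : ℕ) = 0 := rfl
    have v1 : ((1 : Fin 3) : ℕ) = 1 := rfl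
    have v2 : ((2 : Fin 3) : ℕ) = 2 := rfl
    rw [PN, PN, Fin.sum_univ_three, Fin.sum_univ_three]
    -- combine three estimates
    have comb : ∀ (T0 T1 T2 E1 E2 : ℂ) (R0 R1 R2 e1 e2 : ℝ), ‖T0‖ ≤ R0 → ‖T1 - E1‖ ≤ R1 - e1 →
        ‖T2 - E2‖ ≤ R2 - e2 → ‖T0 + T1 + T2 - (E1 + E2)‖ ≤ R0 + R1 + R2 - (e1 + e2) := by
      intro T0 T1 T2 E1 E2 R0 R1 R2 e1 e2 h0 h1 h2
      have : T0 + T1 + T2 - (E1 + E2) = T0 + (T1 - E1) + (T2 - E2) := by ring
      rw [this]
      have h3 := norm_add_le (T0 + (T1 - E1)) (T2 - E2)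
      have h4 := norm_add_le T0 (T1 - E1)
      linarith
    have triv : ∀ k : Fin 3, ∀ L, ‖(if k.1 + 1 ≤ L then z k * (w (u + (k.1 + 1)) : ℂ) *
        PN z (fun p => (w p : ℂ)) N (L - (k.1 + 1)) (u + (k.1 + 1)) else 0)‖ ≤
        (if k.1 + 1 ≤ L then ‖z k‖ * w (u + (k.1 + 1)) *
          PN (fun k => ‖z k‖) w N (L - (k.1 + 1)) (u + (k.1 + 1)) else 0) := by
      intro k L
      split_ifs with hk
      · rw [norm_mul, norm_mul, Complex.norm_real, Real.norm_of_nonneg (hw _)]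
        exact mul_le_mul_of_nonneg_left (norm_PN_le z w hw _ _ _)
          (mul_nonneg (norm_nonneg _) (hw _))
      · simp
    have scal : ∀ (ζ : ℂ) (p : ℕ) (A B : ℂ) (A' B' : ℝ), ‖A - B‖ ≤ A' - B' →
        ‖ζ * (w p : ℂ) * A - ζ * (w p : ℂ) * B‖ ≤ ‖ζ‖ * w p * A' - ‖ζ‖ * w p * B' := by
      intro ζ p A B A' B' hAB
      rw [← mul_sub, ← mul_sub, norm_mul, norm_mul, Complex.norm_real,
        Real.norm_of_nonneg (hw _)]
      exact mul_le_mul_of_nonneg_left hAB (mul_nonneg (norm_nonneg _) (hw _))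
    cases a with
    | zero =>
      have e1 : z 1 ^ 0 * z 2 ^ (N + 1 - 0) * (cc w (N + 1) 0 u : ℂ) =
          0 + z 2 * (w (u + (((2 : Fin 3) : ℕ) + 1)) : ℂ) *
            (z 1 ^ 0 * z 2 ^ (N - 0) * (cc w N 0 (u + 3) : ℂ)) := by
        rw [cc, v2]; push_cast; simp only [Nat.sub_zero, pow_zero, one_mul]
        rw [pow_succ]; ring
      have e2 : ‖z 1‖ ^ 0 * ‖z 2‖ ^ (N + 1 - 0) * cc w (N + 1) 0 u =
          0 + ‖z 2‖ * w (u + (((2 : Fin 3) : ℕ) + 1)) *
            (‖z 1‖ ^ 0 * ‖z 2‖ ^ (N - 0) * cc w N 0 (u + 3)) := by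
        rw [cc, v2]; simp only [Nat.sub_zero, pow_zero, one_mul]
        rw [pow_succ]; ring
      rw [e1, e2]
      apply comb
      · exact triv 0 _
      · rw [sub_zero, sub_zero]; exact triv 1 _
      · rw [if_pos (by rw [v2]; omega), if_pos (by rw [v2]; omega)]
        apply scal
        have h1 := ih 0 (u + 3) (by omega)
        have e3 : 3 * (N + 1) - 0 - (((2 : Fin 3) : ℕ) + 1) = 3 * N - 0 := by rw [v2]; omega
        rw [e3, v2]
        exact h1
    | succ a =>
      have e1 : z 1 ^ (a + 1) * z 2 ^ (N + 1 - (a + 1)) * (cc w (N + 1) (a + 1) u : ℂ) =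
          z 1 * (w (u + (((1 : Fin 3) : ℕ) + 1)) : ℂ) *
            (z 1 ^ a * z 2 ^ (N - a) * (cc w N a (u + 2) : ℂ)) +
          z 1 ^ (a + 1) * z 2 ^ (N - a) * (w (u + 3) * (cc w N (a + 1) (u + 3) : ℂ)) := by
        rw [cc, v1, Nat.add_sub_add_right]; push_cast; rw [pow_succ]; ring
      have e2 : ‖z 1‖ ^ (a + 1) * ‖z 2‖ ^ (N + 1 - (a + 1)) * cc w (N + 1) (a + 1) u =
          ‖z 1‖ * w (u + (((1 : Fin 3) : ℕ) + 1)) *
            (‖z 1‖ ^ a * ‖z 2‖ ^ (N - a) * cc w N a (u + 2)) +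
          ‖z 1‖ ^ (a + 1) * ‖z 2‖ ^ (N - a) * (w (u + 3) * cc w N (a + 1) (u + 3)) := by
        rw [cc, v1, Nat.add_sub_add_right]; rw [pow_succ]; ring
      rw [e1, e2]
      apply comb
      · exact triv 0 _
      · rw [if_pos (by rw [v1]; omega), if_pos (by rw [v1]; omega)]
        apply scal
        have h1 := ih a (u + 2) (by omega)
        have e3 : 3 * (N + 1) - (a + 1) - (((1 : Fin 3) : ℕ) + 1) = 3 * N - a := by
          rw [v1]; omega
        rw [e3, v1]
        exact h1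
      · by_cases haN : a + 1 ≤ N
        · rw [if_pos (by rw [v2]; omega), if_pos (by rw [v2]; omega)]
          have h1 := ih (a + 1) (u + 3) haN
          have e3 : 3 * (N + 1) - (a + 1) - (((2 : Fin 3) : ℕ) + 1) = 3 * N - (a + 1) := by
            rw [v2]; omega
          have e4 : N - a = N - (a + 1) + 1 := by omega
          have e5 : z 1 ^ (a + 1) * z 2 ^ (N - a) * (w (u + 3) * (cc w N (a + 1) (u + 3) : ℂ)) =
              z 2 * (w (u + (((2 : Fin 3) : ℕ) + 1)) : ℂ) *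
                (z 1 ^ (a + 1) * z 2 ^ (N - (a + 1)) * (cc w N (a + 1) (u + 3) : ℂ)) := by
            rw [e4, v2, pow_succ (z 2)]; ring
          have e6 : ‖z 1‖ ^ (a + 1) * ‖z 2‖ ^ (N - a) * (w (u + 3) * cc w N (a + 1) (u + 3)) =
              ‖z 2‖ * w (u + (((2 : Fin 3) : ℕ) + 1)) *
                (‖z 1‖ ^ (a + 1) * ‖z 2‖ ^ (N - (a + 1)) * cc w N (a + 1) (u + 3)) := by
            rw [e4, v2, pow_succ (‖z 2‖)]; ring
          rw [e5, e6]
          apply scal
          rw [e3, v2]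
          exact h1
        · rw [cc_zero w N (a + 1) (u + 3) (by omega)]
          simp only [Complex.ofReal_zero, mul_zero, sub_zero]
          exact triv 2 _

/-- cancellation of two terms with different directions -/
lemma angle {α β : ℂ} (hne : ¬ SameRay ℝ β α) : ∃ κ : ℝ, 0 < κ ∧ ∀ (Z : ℂ) (x y M : ℝ), 0 ≤ x →
    0 ≤ y → 0 ≤ M → M ≤ ‖Z‖ * ‖α‖ * x → M ≤ ‖Z‖ * ‖β‖ * y →
    ‖Z * (α * x) + Z * (β * y)‖ ≤ ‖Z‖ * ‖α‖ * x + ‖Z‖ * ‖β‖ * y - κ * M := by
  have hα : α ≠ 0 := fun h => hne (h ▸ SameRay.zero_right _)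
  have hβ : β ≠ 0 := fun h => hne (h ▸ SameRay.zero_left _)
  have hα' : 0 < ‖α‖ := norm_pos_iff.mpr hα
  have hβ' : 0 < ‖β‖ := norm_pos_iff.mpr hβ
  set a : ℂ := ((‖α‖⁻¹ : ℝ) : ℂ) * α with ha
  set b : ℂ := ((‖β‖⁻¹ : ℝ) : ℂ) * β with hb
  have hna : ‖a‖ = 1 := by
    rw [ha, norm_mul, Complex.norm_real, Real.norm_of_nonneg (inv_nonneg.mpr hα'.le),
      inv_mul_cancel₀ hα'.ne']
  have hnb : ‖b‖ = 1 := by
    rw [hb, norm_mul, Complex.norm_real, Real.norm_of_nonneg (inv_nonneg.mpr hβ'.le),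
      inv_mul_cancel₀ hβ'.ne']
  have hab : ¬ SameRay ℝ b a := by
    intro h
    apply hne
    have h1 : SameRay ℝ (‖β‖ • b) (‖α‖ • a) :=
      (SameRay.nonneg_smul_left (SameRay.nonneg_smul_right h hα'.le) hβ'.le)
    have e1 : ‖β‖ • b = β := by
      rw [hb, Complex.real_smul, ← mul_assoc, ← Complex.ofReal_mul, mul_inv_cancel₀ hβ'.ne']
      simp
    have e2 : ‖α‖ • a = α := by
      rw [ha, Complex.real_smul, ← mul_assoc, ← Complex.ofReal_mul, mul_inv_cancel₀ hα'.ne']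
      simp
    rwa [e1, e2] at h1
  have hlt : ‖b + a‖ < 2 := by
    have := norm_add_lt_of_not_sameRay hab
    rw [hna, hnb] at this
    linarith
  refine ⟨2 - ‖b + a‖, by linarith, ?_⟩
  intro Z x y M hx hy hM hMx hMy
  set X : ℝ := ‖Z‖ * ‖α‖ * x with hX
  set Y : ℝ := ‖Z‖ * ‖β‖ * y with hY
  have e1 : ‖Z * (α * x) + Z * (β * y)‖ = ‖(X : ℂ) * a + (Y : ℂ) * b‖ := by
    have e2 : (X : ℂ) * a + (Y : ℂ) * b = (‖Z‖ : ℂ) * (α * x + β * y) := by
      rw [hX, hY, ha, hb]
      have h1 : ((‖α‖ : ℝ) : ℂ) ≠ 0 := by exact_mod_cast hα'.ne'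
      have h2 : ((‖β‖ : ℝ) : ℂ) ≠ 0 := by exact_mod_cast hβ'.ne'
      push_cast
      field_simp
    rw [e2, ← mul_add, norm_mul, norm_mul, Complex.norm_real, norm_norm]
  rw [e1]
  rcases le_total X Y with hXY | hXY
  · have e3 : (X : ℂ) * a + (Y : ℂ) * b = (X : ℂ) * (b + a) + ((Y - X : ℝ) : ℂ) * b := by
      push_cast; ring
    have hX0 : 0 ≤ X := hM.trans hMx
    rw [e3]
    calc ‖(X : ℂ) * (b + a) + ((Y - X : ℝ) : ℂ) * b‖
        ≤ ‖(X : ℂ) * (b + a)‖ + ‖((Y - X : ℝ) : ℂ) * b‖ := norm_add_le _ _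
      _ = X * ‖b + a‖ + (Y - X) := by
          rw [norm_mul, norm_mul, Complex.norm_real, Complex.norm_real,
            Real.norm_of_nonneg hX0, Real.norm_of_nonneg (by linarith), hnb, mul_one]
      _ = X + Y - (2 - ‖b + a‖) * X := by ring
      _ ≤ X + Y - (2 - ‖b + a‖) * M := by
          have := mul_le_mul_of_nonneg_left hMx (show 0 ≤ 2 - ‖b + a‖ by linarith)
          linarith
  · have e3 : (X : ℂ) * a + (Y : ℂ) * b = (Y : ℂ) * (b + a) + ((X - Y : ℝ) : ℂ) * a := by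
      push_cast; ring
    have hY0 : 0 ≤ Y := hM.trans hMy
    rw [e3]
    calc ‖(Y : ℂ) * (b + a) + ((X - Y : ℝ) : ℂ) * a‖
        ≤ ‖(Y : ℂ) * (b + a)‖ + ‖((X - Y : ℝ) : ℂ) * a‖ := norm_add_le _ _
      _ = Y * ‖b + a‖ + (X - Y) := by
          rw [norm_mul, norm_mul, Complex.norm_real, Complex.norm_real,
            Real.norm_of_nonneg hY0, Real.norm_of_nonneg (by linarith), hna, mul_one]
      _ = X + Y - (2 - ‖b + a‖) * Y := by ring
      _ ≤ X + Y - (2 - ‖b + a‖) * M := by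
          have := mul_le_mul_of_nonneg_left hMy (show 0 ≤ 2 - ‖b + a‖ by linarith)
          linarith

/-- geometric sum bound -/
lemma geom_le (m : ℕ) : ∑ e ∈ Finset.range m, (1 / 12 : ℝ) ^ e ≤ 2 := by
  have h : ∑ e ∈ Finset.range m, (1 / 12 : ℝ) ^ e = (1 - (1 / 12) ^ m) * (12 / 11) := by
    induction m with
    | zero => simp
    | succ m ih => rw [Finset.sum_range_succ, ih]; ring
  rw [h]
  have : (0 : ℝ) ≤ (1 / 12) ^ m := by positivity
  linarith

/-- upper bound for the total of a block -/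
lemma block_upper (r : Fin 3 → ℝ) (hr : ∀ k, 0 ≤ r k) (hr2 : 0 < r 2)
    (q lo hi : ℕ) (w : ℕ → ℝ) (hq : 10 ≤ q) (hw : ∀ p, 0 ≤ w p)
    (hm : ∀ p, lo ≤ p → p < hi → w p ≤ w (p + 1))
    (hup : ∀ p, lo ≤ p → p ≤ hi → w p ≤ 1 / (12 * (q : ℝ) ^ 6))
    (u L N0 s : ℕ) (hu : lo ≤ u) (hhi : u + 3 * q ^ 2 ≤ hi) (hL2 : L ≤ q ^ 2)
    (hs : L + s = 3 * N0) (hs2 : s ≤ 2) (hN0 : N0 ≤ L) :
    P r w L u ≤ 2 * Real.exp ((r 1 * max 1 (r 2) + r 0 * max 1 (r 2) ^ 2) / r 2) *
      ((q : ℝ) ^ (2 * s) * r 2 ^ N0 * ∏ t ∈ Finset.range N0, w (u + 3 * (t + 1))) := by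
  set Y : ℝ := max 1 (r 2) with hY
  have hY1 : 1 ≤ Y := le_max_left _ _
  have hYr : r 2 ≤ Y := le_max_right _ _
  have hr1 := hr 1
  have hr0 := hr 0
  set K1 : ℝ := Real.exp ((r 1 * Y + r 0 * Y ^ 2) / r 2) with hK1
  set Kw : ℝ := ∏ t ∈ Finset.range N0, w (u + 3 * (t + 1)) with hKw
  have hKw0 : 0 ≤ Kw := Finset.prod_nonneg (fun t _ => hw _)
  have hqR : (10 : ℝ) ≤ q := by exact_mod_cast hq
  have hq0 : (0 : ℝ) < q := by linarith
  set Ξ : ℝ := (q : ℝ) ^ (2 * s) * r 2 ^ N0 * Kw with hΞ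
  have hΞ0 : 0 ≤ Ξ := by positivity
  set y : ℝ := Y / (q : ℝ) ^ 2 with hy
  have hy0 : 0 < y := by positivity
  -- each term
  have term : ∀ e, N0 + e ≤ L → PN r w (N0 + e) L u ≤ K1 * Ξ * (1 / 12) ^ e := by
    intro e he
    have h1 := upper r w hr hw y hy0.le lo hi hm (N0 + e) L u hu (by nlinarith) (by omega)
    have e1 : 3 * (N0 + e) - L = s + 3 * e := by omega
    rw [e1] at h1
    have hG : (r 2 + r 1 * y + r 0 * y ^ 2) ^ (N0 + e) ≤ r 2 ^ (N0 + e) * K1 := by
      have h2 : r 2 + r 1 * y + r 0 * y ^ 2 ≤ r 2 * Real.exp ((r 1 * y + r 0 * y ^ 2) / r 2) := by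
        have h3 := Real.add_one_le_exp ((r 1 * y + r 0 * y ^ 2) / r 2)
        have h4 := mul_le_mul_of_nonneg_left h3 hr2.le
        have h5 : r 2 * ((r 1 * y + r 0 * y ^ 2) / r 2 + 1) = r 2 + r 1 * y + r 0 * y ^ 2 := by
          field_simp; ring
        linarith
      calc (r 2 + r 1 * y + r 0 * y ^ 2) ^ (N0 + e)
          ≤ (r 2 * Real.exp ((r 1 * y + r 0 * y ^ 2) / r 2)) ^ (N0 + e) :=
            pow_le_pow_left₀ (by positivity) h2 _
        _ = r 2 ^ (N0 + e) * Real.exp (((N0 + e : ℕ) : ℝ) * ((r 1 * y + r 0 * y ^ 2) / r 2)) := by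
            rw [mul_pow, Real.exp_nat_mul]
        _ ≤ r 2 ^ (N0 + e) * K1 := by
            apply mul_le_mul_of_nonneg_left _ (by positivity)
            rw [hK1]
            apply Real.exp_le_exp.mpr
            have hN : ((N0 + e : ℕ) : ℝ) ≤ (q : ℝ) ^ 2 := by exact_mod_cast he.trans hL2
            calc ((N0 + e : ℕ) : ℝ) * ((r 1 * y + r 0 * y ^ 2) / r 2)
                ≤ (q : ℝ) ^ 2 * ((r 1 * y + r 0 * y ^ 2) / r 2) :=
                  mul_le_mul_of_nonneg_right hN (by positivity)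
              _ = (r 1 * Y + r 0 * (Y ^ 2 / (q : ℝ) ^ 2)) / r 2 := by
                  rw [hy]; field_simp
              _ ≤ (r 1 * Y + r 0 * Y ^ 2) / r 2 := by
                  apply div_le_div_of_nonneg_right _ hr2.le
                  have : Y ^ 2 / (q : ℝ) ^ 2 ≤ Y ^ 2 := by
                    apply div_le_self (by positivity)
                    nlinarith
                  have := mul_le_mul_of_nonneg_left this hr0
                  linarith
    have hprod : ∏ t ∈ Finset.range (N0 + e), w (u + 3 * (t + 1)) ≤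
        Kw * (1 / (12 * (q : ℝ) ^ 6)) ^ e := by
      rw [Finset.prod_range_add]
      apply mul_le_mul_of_nonneg_left _ hKw0
      calc ∏ x ∈ Finset.range e, w (u + 3 * (N0 + x + 1))
          ≤ ∏ _x ∈ Finset.range e, (1 / (12 * (q : ℝ) ^ 6)) := by
            apply Finset.prod_le_prod (fun t _ => hw _)
            intro t ht
            rw [Finset.mem_range] at ht
            exact hup _ (by omega) (by nlinarith)
        _ = (1 / (12 * (q : ℝ) ^ 6)) ^ e := by rw [Finset.prod_const, Finset.card_range]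
    have hfin : y ^ (s + 3 * e) * PN r w (N0 + e) L u ≤
        y ^ (s + 3 * e) * (K1 * Ξ * (1 / 12) ^ e) := by
      calc y ^ (s + 3 * e) * PN r w (N0 + e) L u
          ≤ (r 2 + r 1 * y + r 0 * y ^ 2) ^ (N0 + e) *
            ∏ t ∈ Finset.range (N0 + e), w (u + 3 * (t + 1)) := h1
        _ ≤ (r 2 ^ (N0 + e) * K1) * (Kw * (1 / (12 * (q : ℝ) ^ 6)) ^ e) :=
            mul_le_mul hG hprod (Finset.prod_nonneg (fun t _ => hw _)) (by positivity)
        _ = (r 2 ^ e) * (r 2 ^ N0 * K1 * Kw * (1 / (12 * (q : ℝ) ^ 6)) ^ e) := by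
            rw [pow_add]; ring
        _ ≤ (Y ^ (s + 3 * e)) * (r 2 ^ N0 * K1 * Kw * (1 / (12 * (q : ℝ) ^ 6)) ^ e) := by
            apply mul_le_mul_of_nonneg_right _ (by positivity)
            calc r 2 ^ e ≤ Y ^ e := pow_le_pow_left₀ hr2.le hYr e
              _ ≤ Y ^ (s + 3 * e) := pow_le_pow_right₀ hY1 (by omega)
        _ = y ^ (s + 3 * e) * (K1 * Ξ * (1 / 12) ^ e) := by
            rw [hy, hΞ, div_pow, div_pow, one_pow, mul_pow, ← pow_mul, ← pow_mul, div_pow, one_pow]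
            have e2 : (q : ℝ) ^ (2 * (s + 3 * e)) = (q : ℝ) ^ (2 * s) * (q : ℝ) ^ (6 * e) := by
              rw [← pow_add]; congr 1; ring
            rw [e2]
            field_simp
    exact le_of_mul_le_mul_left hfin (by positivity)
  unfold P
  have hLN : L + 1 = N0 + (L + 1 - N0) := by omega
  rw [hLN, Finset.sum_range_add]
  have hz : ∑ x ∈ Finset.range N0, PN r w x L u = 0 := by
    apply Finset.sum_eq_zero
    intro N hN
    rw [Finset.mem_range] at hN
    exact PN_zero_of_gt r w N L u (by omega)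
  rw [hz, zero_add]
  calc ∑ e ∈ Finset.range (L + 1 - N0), PN r w (N0 + e) L u
      ≤ ∑ e ∈ Finset.range (L + 1 - N0), K1 * Ξ * (1 / 12) ^ e := by
        apply Finset.sum_le_sum
        intro e he
        rw [Finset.mem_range] at he
        exact term e (by omega)
    _ = K1 * Ξ * ∑ e ∈ Finset.range (L + 1 - N0), (1 / 12 : ℝ) ^ e := by rw [Finset.mul_sum]
    _ ≤ K1 * Ξ * 2 := mul_le_mul_of_nonneg_left (geom_le _) (by positivity)
    _ = 2 * K1 * Ξ := by ring

/-- lower bounds for the two special types -/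
lemma block_lower (r1 r2 : ℝ) (hr1 : 0 < r1) (hr2 : 0 < r2)
    (q lo hi : ℕ) (w : ℕ → ℝ) (hq : 10 ≤ q) (hw : ∀ p, 0 ≤ w p)
    (hm : ∀ p, lo ≤ p → p < hi → (1 - 1 / (q : ℝ) ^ 3) * w (p + 1) ≤ w p)
    (hlow : ∀ p, lo ≤ p → p ≤ hi → 1 / (16 * (q : ℝ) ^ 6) ≤ w p)
    (u L N0 s : ℕ) (hu : lo ≤ u) (hhi : u + 3 * q ^ 2 ≤ hi) (hL1 : q ^ 2 ≤ L + 5)
    (hL2 : L ≤ q ^ 2) (hs : L + s = 3 * N0) (hs2 : s ≤ 2) :
    min 1 (r1 / r2) ^ 2 / 144 *
      ((q : ℝ) ^ (2 * s) * r2 ^ N0 * ∏ t ∈ Finset.range N0, w (u + 3 * (t + 1))) ≤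
        r1 ^ s * r2 ^ (N0 - s) * cc w N0 s u ∧
    min 1 (r1 / r2) ^ 5 * r2 / 29859840 *
      ((q : ℝ) ^ (2 * s) * r2 ^ N0 * ∏ t ∈ Finset.range N0, w (u + 3 * (t + 1))) ≤
        r1 ^ (s + 3) * r2 ^ (N0 + 1 - (s + 3)) * cc w (N0 + 1) (s + 3) u := by
  set Kw : ℝ := ∏ t ∈ Finset.range N0, w (u + 3 * (t + 1)) with hKw
  have hKw0 : 0 ≤ Kw := Finset.prod_nonneg (fun t _ => hw _)
  have hqR : (10 : ℝ) ≤ q := by exact_mod_cast hq
  have hq0 : (0 : ℝ) < q := by linarith
  have hqq : 100 ≤ q ^ 2 := by nlinarith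
  set lam : ℝ := 1 - 1 / (q : ℝ) ^ 3 with hlam
  have hq3 : (1 : ℝ) / (q : ℝ) ^ 3 ≤ 1 := by
    rw [div_le_one (by positivity)]
    exact one_le_pow₀ (by linarith)
  have hlam0 : 0 ≤ lam := by rw [hlam]; linarith
  have hlam1 : lam ≤ 1 := by
    rw [hlam]
    have : (0 : ℝ) ≤ 1 / (q : ℝ) ^ 3 := by positivity
    linarith
  have hlp : ∀ n : ℕ, n ≤ 5 * q ^ 2 → (1 : ℝ) / 2 ≤ lam ^ n := by
    intro n hn
    have h1 := one_add_mul_le_pow (a := -(1 / (q : ℝ) ^ 3)) (by linarith) n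
    have h2 : (1 : ℝ) + -(1 / (q : ℝ) ^ 3) = lam := by rw [hlam]; ring
    rw [h2] at h1
    have h3 : (n : ℝ) ≤ 5 * (q : ℝ) ^ 2 := by exact_mod_cast hn
    have h4 : (n : ℝ) * (1 / (q : ℝ) ^ 3) ≤ 1 / 2 := by
      calc (n : ℝ) * (1 / (q : ℝ) ^ 3) ≤ (5 * (q : ℝ) ^ 2) * (1 / (q : ℝ) ^ 3) :=
            mul_le_mul_of_nonneg_right h3 (by positivity)
        _ = 5 / q := by field_simp
        _ ≤ 1 / 2 := by rw [div_le_div_iff₀ hq0 (by norm_num)]; linarith
    linarith
  have hN0q : q ^ 2 ≤ 3 * N0 + 5 := by omega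
  have hbase : (q : ℝ) ^ 2 / 6 ≤ ((N0 - 3 : ℕ) : ℝ) := by
    have h1 : ((N0 - 3 : ℕ) : ℝ) = (N0 : ℝ) - 3 := by
      rw [Nat.cast_sub (by omega)]; norm_num
    have h2 : (q : ℝ) ^ 2 ≤ 3 * N0 + 5 := by exact_mod_cast hN0q
    have h3 : (100 : ℝ) ≤ (q : ℝ) ^ 2 := by exact_mod_cast hqq
    rw [h1]; linarith
  have hchoose : ∀ (N a : ℕ), N0 - 3 ≤ N + 1 - a →
      ((q : ℝ) ^ 2 / 6) ^ a / (a.factorial : ℝ) ≤ (N.choose a : ℝ) := by
    intro N a h
    refine le_trans ?_ (Nat.pow_le_choose a N)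
    apply div_le_div_of_nonneg_right _ (by positivity)
    apply pow_le_pow_left₀ (by positivity)
    refine hbase.trans ?_
    exact_mod_cast h
  set ρ : ℝ := min 1 (r1 / r2) with hρ
  have hρ0 : 0 < ρ := lt_min one_pos (by positivity)
  have hρ1 : ρ ≤ 1 := min_le_left _ _
  have hρ2 : ρ ≤ r1 / r2 := min_le_right _ _
  constructor
  · have h1 := lower w hw lam hlam0 hlam1 lo hi hm N0 s u hu (by nlinarith)
    have h2 := hlp (s * N0) (by nlinarith)
    have h3 := hchoose N0 s (by omega)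
    have h4 : (q : ℝ) ^ (2 * s) / 72 ≤ ((q : ℝ) ^ 2 / 6) ^ s / (s.factorial : ℝ) := by
      rw [div_pow, ← pow_mul, div_div]
      apply div_le_div_of_nonneg_left (by positivity) (by positivity)
      interval_cases s <;> norm_num [Nat.factorial]
    have h5 : ρ ^ 2 ≤ (r1 / r2) ^ s := by
      calc ρ ^ 2 ≤ ρ ^ s := pow_le_pow_of_le_one hρ0.le hρ1 hs2
        _ ≤ (r1 / r2) ^ s := pow_le_pow_left₀ hρ0.le hρ2 s
    have h6 : r1 ^ s * r2 ^ (N0 - s) = (r1 / r2) ^ s * r2 ^ N0 := by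
      have : r2 ^ N0 = r2 ^ (N0 - s) * r2 ^ s := by rw [← pow_add]; congr 1; omega
      rw [this, div_pow]; field_simp
    calc ρ ^ 2 / 144 * ((q : ℝ) ^ (2 * s) * r2 ^ N0 * Kw)
        = (ρ ^ 2) * (r2 ^ N0 * (((q : ℝ) ^ (2 * s) / 72) * (1 / 2) * Kw)) := by ring
      _ ≤ (r1 / r2) ^ s * (r2 ^ N0 * ((N0.choose s : ℝ) * lam ^ (s * N0) * Kw)) := by
          apply mul_le_mul h5 _ (by positivity) (by positivity)
          apply mul_le_mul_of_nonneg_left _ (by positivity)
          apply mul_le_mul_of_nonneg_right _ hKw0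
          exact mul_le_mul (h4.trans h3) h2 (by norm_num) (by positivity)
      _ ≤ (r1 / r2) ^ s * (r2 ^ N0 * cc w N0 s u) := by
          apply mul_le_mul_of_nonneg_left _ (by positivity)
          exact mul_le_mul_of_nonneg_left h1 (by positivity)
      _ = r1 ^ s * r2 ^ (N0 - s) * cc w N0 s u := by rw [h6]; ring
  · have hN0q2 : N0 + 1 ≤ q ^ 2 := by omega
    have h1 := lower w hw lam hlam0 hlam1 lo hi hm (N0 + 1) (s + 3) u hu (by nlinarith)
    have h2 := hlp ((s + 3) * (N0 + 1)) (by nlinarith)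
    have h3 := hchoose (N0 + 1) (s + 3) (by omega)
    have h4 : (q : ℝ) ^ (2 * s) * (q : ℝ) ^ 6 / 933120 ≤
        ((q : ℝ) ^ 2 / 6) ^ (s + 3) / ((s + 3).factorial : ℝ) := by
      rw [div_pow, ← pow_mul, div_div]
      have e : (q : ℝ) ^ (2 * (s + 3)) = (q : ℝ) ^ (2 * s) * (q : ℝ) ^ 6 := by
        rw [← pow_add]; congr 1
      rw [e]
      apply div_le_div_of_nonneg_left (by positivity) (by positivity)
      interval_cases s <;> norm_num [Nat.factorial]
    have h5 : ρ ^ 5 ≤ (r1 / r2) ^ (s + 3) := by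
      calc ρ ^ 5 ≤ ρ ^ (s + 3) := pow_le_pow_of_le_one hρ0.le hρ1 (by omega)
        _ ≤ (r1 / r2) ^ (s + 3) := pow_le_pow_left₀ hρ0.le hρ2 _
    have h6 : r1 ^ (s + 3) * r2 ^ (N0 + 1 - (s + 3)) = (r1 / r2) ^ (s + 3) * (r2 * r2 ^ N0) := by
      have : r2 * r2 ^ N0 = r2 ^ (N0 + 1 - (s + 3)) * r2 ^ (s + 3) := by
        rw [← pow_add, ← pow_succ']; congr 1; omega
      rw [this, div_pow]; field_simp
    have h7 := hlow (u + 3 * (N0 + 1)) (by omega) (by nlinarith)
    rw [Finset.prod_range_succ, ← hKw] at h1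
    calc ρ ^ 5 * r2 / 29859840 * ((q : ℝ) ^ (2 * s) * r2 ^ N0 * Kw)
        = (ρ ^ 5) * ((r2 * r2 ^ N0) * (((q : ℝ) ^ (2 * s) * (q : ℝ) ^ 6 / 933120) * (1 / 2) *
          (Kw * (1 / (16 * (q : ℝ) ^ 6))))) := by field_simp; ring
      _ ≤ (r1 / r2) ^ (s + 3) * ((r2 * r2 ^ N0) * (((N0 + 1).choose (s + 3) : ℝ) *
          lam ^ ((s + 3) * (N0 + 1)) * (Kw * w (u + 3 * (N0 + 1))))) := by
          apply mul_le_mul h5 _ (by positivity) (by positivity)
          apply mul_le_mul_of_nonneg_left _ (by positivity)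
          apply mul_le_mul _ _ (by positivity) (by positivity)
          · exact mul_le_mul (h4.trans h3) h2 (by norm_num) (by positivity)
          · exact mul_le_mul_of_nonneg_left h7 hKw0
      _ ≤ (r1 / r2) ^ (s + 3) * ((r2 * r2 ^ N0) * cc w (N0 + 1) (s + 3) u) := by
          apply mul_le_mul_of_nonneg_left _ (by positivity)
          exact mul_le_mul_of_nonneg_left h1 (by positivity)
      _ = r1 ^ (s + 3) * r2 ^ (N0 + 1 - (s + 3)) * cc w (N0 + 1) (s + 3) u := by rw [h6]; ring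

/-- cancellation in one block -/
lemma block (z : Fin 3 → ℂ) (hz : ¬ SameRay ℝ (z 1 ^ 3) (z 2 ^ 2)) :
    ∃ δ : ℝ, 0 < δ ∧ δ ≤ 1 / 2 ∧ ∀ (q lo hi : ℕ) (w : ℕ → ℝ), 10 ≤ q → (∀ p, 0 ≤ w p) →
      (∀ p, lo ≤ p → p < hi → w p ≤ w (p + 1) ∧ (1 - 1 / (q : ℝ) ^ 3) * w (p + 1) ≤ w p) →
      (∀ p, lo ≤ p → p ≤ hi → 1 / (16 * (q : ℝ) ^ 6) ≤ w p ∧ w p ≤ 1 / (12 * (q : ℝ) ^ 6)) →
      ∀ u L, lo ≤ u → u + 3 * q ^ 2 ≤ hi → q ^ 2 ≤ L + 5 → L ≤ q ^ 2 →
        ‖P z (fun p => (w p : ℂ)) L u‖ ≤ (1 - δ) * P (fun k => ‖z k‖) w L u := by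
  obtain ⟨κ, hκ, hang⟩ := angle hz
  have hz1 : z 1 ≠ 0 := by
    intro h; apply hz; rw [h]; simp
  have hz2 : z 2 ≠ 0 := by
    intro h; apply hz; rw [h]; simp
  set r1 : ℝ := ‖z 1‖ with hr1
  set r2 : ℝ := ‖z 2‖ with hr2
  have hr1p : 0 < r1 := norm_pos_iff.mpr hz1
  have hr2p : 0 < r2 := norm_pos_iff.mpr hz2
  set K1 : ℝ := Real.exp ((r1 * max 1 r2 + ‖z 0‖ * max 1 r2 ^ 2) / r2) with hK1
  set ρ : ℝ := min 1 (r1 / r2) with hρ
  have hρ0 : 0 < ρ := lt_min one_pos (by positivity)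
  set c1 : ℝ := ρ ^ 2 / 144 with hc1
  set c2 : ℝ := ρ ^ 5 * r2 / 29859840 with hc2
  have hc1p : 0 < c1 := by positivity
  have hc2p : 0 < c2 := by positivity
  have hK1p : 0 < K1 := Real.exp_pos _
  refine ⟨min (κ * min c1 c2 / (2 * K1)) (1 / 2), lt_min (by positivity) (by norm_num),
    min_le_right _ _, ?_⟩
  intro q lo hi w hq hw hm hb u L hu hhi hL1 hL2
  obtain ⟨N0, s, hs, hs2⟩ : ∃ N0 s, L + s = 3 * N0 ∧ s ≤ 2 :=
    ⟨(L + 2) / 3, 3 * ((L + 2) / 3) - L, by omega, by omega⟩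
  have hqq : 100 ≤ q ^ 2 := by nlinarith
  have hUp := block_upper (fun k => ‖z k‖) (fun k => norm_nonneg _) hr2p q lo hi w hq hw
    (fun p h1 h2 => (hm p h1 h2).1) (fun p h1 h2 => (hb p h1 h2).2) u L N0 s hu hhi hL2 hs hs2
    (by omega)
  obtain ⟨hLo1, hLo2⟩ := block_lower r1 r2 hr1p hr2p q lo hi w hq hw
    (fun p h1 h2 => (hm p h1 h2).2) (fun p h1 h2 => (hb p h1 h2).1) u L N0 s hu hhi hL1 hL2 hs hs2
  set Kw : ℝ := ∏ t ∈ Finset.range N0, w (u + 3 * (t + 1)) with hKw
  have hKw0 : 0 ≤ Kw := Finset.prod_nonneg (fun t _ => hw _)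
  set Ξ : ℝ := (q : ℝ) ^ (2 * s) * r2 ^ N0 * Kw with hΞ
  have hΞ0 : 0 ≤ Ξ := by positivity
  simp only [← hr1, ← hr2] at hUp
  -- the two special terms
  set EA : ℂ := z 1 ^ s * z 2 ^ (N0 - s) * (cc w N0 s u : ℂ) with hEA
  set EB : ℂ := z 1 ^ (s + 3) * z 2 ^ (N0 + 1 - (s + 3)) * (cc w (N0 + 1) (s + 3) u : ℂ) with hEB
  set eA : ℝ := r1 ^ s * r2 ^ (N0 - s) * cc w N0 s u with heA
  set eB : ℝ := r1 ^ (s + 3) * r2 ^ (N0 + 1 - (s + 3)) * cc w (N0 + 1) (s + 3) u with heB
  have hsum : ‖P z (fun p => (w p : ℂ)) L u - (EA + EB)‖ ≤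
      P (fun k => ‖z k‖) w L u - (eA + eB) := by
    unfold P
    have f1 : EA + EB = ∑ N ∈ Finset.range (L + 1),
        ((if N = N0 then EA else 0) + (if N = N0 + 1 then EB else 0)) := by
      rw [Finset.sum_add_distrib, Finset.sum_ite_eq', Finset.sum_ite_eq',
        if_pos (Finset.mem_range.mpr (by omega)), if_pos (Finset.mem_range.mpr (by omega))]
    have f2 : eA + eB = ∑ N ∈ Finset.range (L + 1),
        ((if N = N0 then eA else 0) + (if N = N0 + 1 then eB else 0)) := by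
      rw [Finset.sum_add_distrib, Finset.sum_ite_eq', Finset.sum_ite_eq',
        if_pos (Finset.mem_range.mpr (by omega)), if_pos (Finset.mem_range.mpr (by omega))]
    rw [f1, f2, ← Finset.sum_sub_distrib, ← Finset.sum_sub_distrib]
    refine (norm_sum_le _ _).trans (Finset.sum_le_sum ?_)
    intro N _
    by_cases h1 : N = N0
    · subst h1
      rw [if_pos rfl, if_neg (by omega), if_pos rfl, if_neg (by omega), add_zero, add_zero]
      have := diff z w hw N s u (by omega)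
      have e : 3 * N - s = L := by omega
      rw [e] at this
      exact this
    · by_cases h2 : N = N0 + 1
      · subst h2
        rw [if_neg (by omega), if_pos rfl, if_neg (by omega), if_pos rfl, zero_add, zero_add]
        have := diff z w hw (N0 + 1) (s + 3) u (by omega)
        have e : 3 * (N0 + 1) - (s + 3) = L := by omega
        rw [e] at this
        exact this
      · rw [if_neg h1, if_neg h2, if_neg h1, if_neg h2, add_zero, add_zero, sub_zero, sub_zero]
        exact norm_PN_le z w hw N L u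
  -- cancellation
  set Z : ℂ := z 1 ^ s * z 2 ^ (N0 - s - 2) with hZ
  have hZn : ‖Z‖ = r1 ^ s * r2 ^ (N0 - s - 2) := by rw [hZ, norm_mul, norm_pow, norm_pow]
  have g1 : EA = Z * (z 2 ^ 2 * (cc w N0 s u : ℂ)) := by
    have : N0 - s = N0 - s - 2 + 2 := by omega
    rw [hEA, hZ, this, pow_add]
    have e : N0 - s - 2 + 2 - 2 = N0 - s - 2 := by omega
    rw [e]; ring
  have g2 : EB = Z * (z 1 ^ 3 * (cc w (N0 + 1) (s + 3) u : ℂ)) := by
    have : N0 + 1 - (s + 3) = N0 - s - 2 := by omega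
    rw [hEB, hZ, this, pow_add]; ring
  have g3 : eA = ‖Z‖ * ‖z 2 ^ 2‖ * cc w N0 s u := by
    have : N0 - s = N0 - s - 2 + 2 := by omega
    rw [heA, hZn, norm_pow, this, pow_add]
    have e : N0 - s - 2 + 2 - 2 = N0 - s - 2 := by omega
    rw [e]; ring
  have g4 : eB = ‖Z‖ * ‖z 1 ^ 3‖ * cc w (N0 + 1) (s + 3) u := by
    have : N0 + 1 - (s + 3) = N0 - s - 2 := by omega
    rw [heB, hZn, norm_pow, this, pow_add]; ring
  have hM1 : min c1 c2 * Ξ ≤ eA :=
    (mul_le_mul_of_nonneg_right (min_le_left _ _) hΞ0).trans hLo1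
  have hM2 : min c1 c2 * Ξ ≤ eB :=
    (mul_le_mul_of_nonneg_right (min_le_right _ _) hΞ0).trans hLo2
  have hcanc := hang Z (cc w N0 s u) (cc w (N0 + 1) (s + 3) u) (min c1 c2 * Ξ)
    (cc_nonneg w hw _ _ _) (cc_nonneg w hw _ _ _) (by positivity)
    (by rw [← g3]; exact hM1) (by rw [← g4]; exact hM2)
  rw [← g1, ← g2, ← g3, ← g4] at hcanc
  have hP0 : 0 ≤ P (fun k => ‖z k‖) w L u :=
    Finset.sum_nonneg (fun N _ => PN_nonneg w (fun k => norm_nonneg _) hw N _ _)
  have hmain : ‖P z (fun p => (w p : ℂ)) L u‖ ≤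
      P (fun k => ‖z k‖) w L u - κ * (min c1 c2 * Ξ) := by
    have h1 : P z (fun p => (w p : ℂ)) L u =
        (P z (fun p => (w p : ℂ)) L u - (EA + EB)) + (EA + EB) := by ring
    calc ‖P z (fun p => (w p : ℂ)) L u‖
        = ‖(P z (fun p => (w p : ℂ)) L u - (EA + EB)) + (EA + EB)‖ := by rw [← h1]
      _ ≤ ‖P z (fun p => (w p : ℂ)) L u - (EA + EB)‖ + ‖EA + EB‖ := norm_add_le _ _
      _ ≤ _ := by linarith
  have hfin : min (κ * min c1 c2 / (2 * K1)) (1 / 2) * P (fun k => ‖z k‖) w L u ≤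
      κ * (min c1 c2 * Ξ) := by
    calc min (κ * min c1 c2 / (2 * K1)) (1 / 2) * P (fun k => ‖z k‖) w L u
        ≤ (κ * min c1 c2 / (2 * K1)) * P (fun k => ‖z k‖) w L u :=
          mul_le_mul_of_nonneg_right (min_le_left _ _) hP0
      _ ≤ (κ * min c1 c2 / (2 * K1)) * (2 * K1 * Ξ) :=
          mul_le_mul_of_nonneg_left hUp (by positivity)
      _ = κ * (min c1 c2 * Ξ) := by field_simp
  linarith

end block

/-! ### The chain of blocks -/

/-- vertex weights in the coordinate `p = (j + n) / 2` -/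
noncomputable def wt (n p : ℕ) : ℝ := if p < n then 1 / (4 * (p : ℝ) * ((n : ℝ) - p)) else 1

lemma wt_nonneg (n p : ℕ) : 0 ≤ wt n p := by
  unfold wt
  split_ifs with h
  · have : (p : ℝ) ≤ n := by exact_mod_cast h.le
    have h2 : (0 : ℝ) ≤ (n : ℝ) - p := by linarith
    positivity
  · norm_num

lemma wt_window (q : ℕ) (hq : 10 ≤ q) : ∀ p, 2 * q ^ 3 ≤ p → p < 3 * q ^ 3 →
    wt (4 * q ^ 3) p ≤ wt (4 * q ^ 3) (p + 1) ∧
      (1 - 1 / (q : ℝ) ^ 3) * wt (4 * q ^ 3) (p + 1) ≤ wt (4 * q ^ 3) p := by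
  intro p h1 h2
  have hq3 : 0 < q ^ 3 := by positivity
  unfold wt
  rw [if_pos (by omega), if_pos (by omega)]
  set Q : ℝ := (q : ℝ) ^ 3 with hQ
  have hQ0 : 1000 ≤ Q := by
    have : (10 : ℝ) ≤ q := by exact_mod_cast hq
    calc (1000 : ℝ) = 10 ^ 3 := by norm_num
      _ ≤ Q := pow_le_pow_left₀ (by norm_num) this 3
  have hp1 : 2 * Q ≤ p := by rw [hQ]; exact_mod_cast h1
  have hp2 : (p : ℝ) + 1 ≤ 3 * Q := by rw [hQ]; exact_mod_cast h2
  have hn : ((4 * q ^ 3 : ℕ) : ℝ) = 4 * Q := by push_cast; rw [hQ]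
  rw [hn]
  push_cast
  have hp0 : 0 < (p : ℝ) := by linarith
  constructor
  · apply one_div_le_one_div_of_le
    · have : 0 < 4 * Q - (p + 1) := by linarith
      positivity
    · nlinarith
  · rw [mul_one_div, div_le_div_iff₀]
    · have h3 : (1 - 1 / Q) * (4 * (p : ℝ) * (4 * Q - p)) =
          4 * (p : ℝ) * ((4 * Q - p) - (4 * Q - p) / Q) := by field_simp
      have h4 : 1 ≤ (4 * Q - p) / Q := by rw [le_div_iff₀ (by linarith)]; linarith
      rw [h3, one_mul]
      nlinarith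
    · have : 0 < 4 * Q - (p + 1) := by linarith
      positivity
    · have : 0 < 4 * Q - p := by linarith
      positivity

lemma wt_size (q : ℕ) (hq : 10 ≤ q) : ∀ p, 2 * q ^ 3 ≤ p → p ≤ 3 * q ^ 3 →
    1 / (16 * (q : ℝ) ^ 6) ≤ wt (4 * q ^ 3) p ∧ wt (4 * q ^ 3) p ≤ 1 / (12 * (q : ℝ) ^ 6) := by
  intro p h1 h2
  have hq3 : 0 < q ^ 3 := by positivity
  unfold wt
  rw [if_pos (by omega)]
  set Q : ℝ := (q : ℝ) ^ 3 with hQ
  have hQ0 : 1000 ≤ Q := by
    have : (10 : ℝ) ≤ q := by exact_mod_cast hq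
    calc (1000 : ℝ) = 10 ^ 3 := by norm_num
      _ ≤ Q := pow_le_pow_left₀ (by norm_num) this 3
  have hQ2 : (q : ℝ) ^ 6 = Q ^ 2 := by rw [hQ]; ring
  have hp1 : 2 * Q ≤ p := by rw [hQ]; exact_mod_cast h1
  have hp2 : (p : ℝ) ≤ 3 * Q := by rw [hQ]; exact_mod_cast h2
  have hn : ((4 * q ^ 3 : ℕ) : ℝ) = 4 * Q := by push_cast; rw [hQ]
  rw [hn, hQ2]
  have hp0 : 0 < (p : ℝ) := by linarith
  have hnp : 0 < 4 * Q - p := by linarith
  constructor
  · apply one_div_le_one_div_of_le (by positivity)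
    nlinarith [sq_nonneg (2 * Q - p)]
  · apply one_div_le_one_div_of_le (by positivity)
    nlinarith

lemma chain (z : Fin 3 → ℂ) (hz : ¬ SameRay ℝ (z 1 ^ 3) (z 2 ^ 2)) :
    ∃ δ : ℝ, 0 < δ ∧ δ ≤ 1 / 2 ∧ ∀ M : ℕ, ∃ n : ℕ, 1 ≤ n ∧ 2 ∣ n ∧
      ‖fC z (wt n) n 0‖ ≤ (1 - δ) ^ M * fR z (wt n) n 0 := by
  obtain ⟨δ, hδ, hδ2, hblock⟩ := block z hz
  refine ⟨δ, hδ, hδ2, ?_⟩
  intro M
  set q : ℕ := M + 10 with hq
  have hq10 : 10 ≤ q := by omega
  have hq3 : 0 < q ^ 3 := by positivity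
  refine ⟨4 * q ^ 3, by omega, ⟨2 * q ^ 3, by ring⟩, ?_⟩
  set n : ℕ := 4 * q ^ 3 with hn
  have hw : ∀ p, 0 ≤ wt n p := wt_nonneg n
  have hqq : q ^ 3 = q ^ 2 * M + 10 * q ^ 2 := by rw [hq]; ring
  have hq2 : 100 ≤ q ^ 2 := by nlinarith
  -- the cuts
  have hcut : ∀ i, i ≤ M → ∀ p, 2 * q ^ 3 + (M - i) * q ^ 2 ≤ p →
      p ≤ 2 * q ^ 3 + (M - i) * q ^ 2 + 2 → ‖fC z (wt n) n p‖ ≤ (1 - δ) ^ i * fR z (wt n) n p := by
    intro i
    induction i with
    | zero =>
      intro _ p _ _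
      rw [pow_zero, one_mul]
      exact norm_fC_le z (wt n) hw n p
    | succ i ih =>
      intro hi p hp1 hp2
      have ih' := ih (by omega)
      obtain ⟨a, ha⟩ : ∃ a, M - (i + 1) = a := ⟨_, rfl⟩
      have ha2 : M - i = a + 1 := by omega
      rw [ha] at hp1 hp2
      rw [ha2] at ih'
      have haM : a + 1 ≤ M := by omega
      have hb1 : (a + 1) * q ^ 2 = a * q ^ 2 + q ^ 2 := by ring
      have hb2 : (a + 1) * q ^ 2 ≤ M * q ^ 2 := Nat.mul_le_mul_right _ haM
      have hb3 : M * q ^ 2 = q ^ 2 * M := Nat.mul_comm _ _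
      have h1 : ∀ k : Fin 3, ‖fC z (wt n) (2 * q ^ 3 + (a + 1) * q ^ 2 - 1 - k.1) p‖ ≤
          (1 - δ) * fR z (wt n) (2 * q ^ 3 + (a + 1) * q ^ 2 - 1 - k.1) p := by
        intro k
        have hk := k.2
        unfold fC fR f
        rw [if_pos (by omega), if_pos (by omega)]
        exact hblock q (2 * q ^ 3) (3 * q ^ 3) (wt n) hq10 hw (wt_window q hq10)
          (wt_size q hq10) p _ (by omega) (by omega) (by omega) (by omega)
      have := cut_step z (wt n) hw n (2 * q ^ 3 + (a + 1) * q ^ 2) p (by omega) (by omega)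
        (by omega) (1 - δ) ((1 - δ) ^ i) (by linarith) h1 (fun p' h1' h2' => ih' p' h1' h2')
      rw [pow_succ']
      exact this
  have h0 := hcut M le_rfl
  rw [Nat.sub_self, Nat.zero_mul, Nat.add_zero] at h0
  exact prop_left z (wt n) hw n (2 * q ^ 3) (by omega) ((1 - δ) ^ M)
    (fun p h1 h2 => h0 p h1 h2) (2 * q ^ 3) 0 (by omega)

/-! ### The link with walks -/

/-- lists of length `N` -/
def LN : ℕ → Finset (List (Fin 3))
  | 0 => {[]}
  | N + 1 => (Finset.univ ×ˢ LN N).image (fun p : Fin 3 × List (Fin 3) => p.1 :: p.2)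

lemma mem_LN : ∀ (N : ℕ) (x : List (Fin 3)), x ∈ LN N ↔ x.length = N := by
  intro N
  induction N with
  | zero => intro x; simp [LN]
  | succ N ih =>
    intro x
    simp only [LN, Finset.mem_image, Finset.mem_product, Finset.mem_univ, true_and, Prod.exists]
    constructor
    · rintro ⟨k, y, hy, rfl⟩
      rw [List.length_cons, (ih y).mp hy]
    · intro hx
      cases x with
      | nil => simp at hx
      | cons k y => exact ⟨k, y, (ih y).mpr (by simpa using hx), rfl⟩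

/-- length of a walk in the coordinate `p` -/
def len (x : List (Fin 3)) : ℕ := (x.map (fun k => k.1 + 1)).sum

lemma len_cons (k : Fin 3) (x : List (Fin 3)) : len (k :: x) = (k.1 + 1) + len x := by
  simp [len]

/-- weight of a path starting at `u` -/
def wtl {R : Type*} [CommRing R] (z : Fin 3 → R) (w : ℕ → R) : ℕ → List (Fin 3) → R
  | _, [] => 1
  | u, k :: x => z k * w (u + (k.1 + 1)) * wtl z w (u + (k.1 + 1)) x

lemma sum_LN {R : Type*} [CommRing R] (z : Fin 3 → R) (w : ℕ → R) : ∀ (N L u : ℕ),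
    ∑ x ∈ (LN N).filter (fun x => len x = L), wtl z w u x = PN z w N L u := by
  intro N
  induction N with
  | zero =>
    intro L u
    rw [PN, LN, Finset.sum_filter, Finset.sum_singleton]
    have : len [] = 0 := rfl
    rw [this]
    by_cases h : L = 0
    · rw [if_pos h.symm, if_pos h]; rfl
    · rw [if_neg (fun hh => h hh.symm), if_neg h]
  | succ N ih =>
    intro L u
    rw [PN, Finset.sum_filter, LN, Finset.sum_image, Finset.sum_product]
    · apply Finset.sum_congr rfl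
      intro k _
      by_cases hk : k.1 + 1 ≤ L
      · rw [if_pos hk, ← ih, Finset.mul_sum, Finset.sum_filter]
        apply Finset.sum_congr rfl
        intro x _
        simp only [len_cons]
        by_cases hx : len x = L - (k.1 + 1)
        · rw [if_pos (by omega), if_pos hx]; rfl
        · rw [if_neg (by omega), if_neg hx]
      · rw [if_neg hk]
        apply Finset.sum_eq_zero
        intro x _
        simp only [len_cons]
        rw [if_neg (by omega)]
    · rintro ⟨k, x⟩ _ ⟨k', x'⟩ _ h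
      simpa using h

lemma len_ge (x : List (Fin 3)) : x.length ≤ len x := by
  induction x with
  | nil => exact le_rfl
  | cons k x ih => rw [len_cons, List.length_cons]; omega

/-- the finite set of walks -/
def XF (n : ℕ) : Finset (List (Fin 3)) :=
  (Finset.range (n + 1)).biUnion (fun N => (LN N).filter (fun x => len x = n))

lemma mem_XF (n : ℕ) (x : List (Fin 3)) : x ∈ XF n ↔ len x = n := by
  simp only [XF, Finset.mem_biUnion, Finset.mem_range, Finset.mem_filter, mem_LN]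
  constructor
  · rintro ⟨N, _, _, h⟩; exact h
  · intro h
    exact ⟨x.length, by have := len_ge x; omega, rfl, h⟩

lemma sum_XF {R : Type*} [CommRing R] (z : Fin 3 → R) (w : ℕ → R) (n : ℕ) :
    ∑ x ∈ XF n, wtl z w 0 x = f z w n 0 := by
  unfold XF f
  rw [if_pos (Nat.zero_le _), Finset.sum_biUnion]
  · unfold P
    rw [Nat.sub_zero]
    exact Finset.sum_congr rfl (fun N _ => sum_LN z w N n 0)
  · intro a _ b _ hab
    rw [Function.onFun, Finset.disjoint_left]
    intro x hx hx'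
    rw [Finset.mem_filter, mem_LN] at hx hx'
    exact hab (hx.1.symm.trans hx'.1)

lemma vertex_eq (n : ℕ) (x : List (Fin 3)) (t : ℕ) :
    vertex n x t = -(n : ℤ) + 2 * (len (x.take t) : ℤ) := by
  unfold vertex
  congr 1
  generalize x.take t = y
  induction y with
  | nil => rfl
  | cons k y ih =>
    rw [List.map_cons, List.sum_cons, ih, len_cons]
    push_cast
    ring

lemma len_take_lt (x : List (Fin 3)) (t : ℕ) (ht : t < x.length) : len (x.take t) < len x := by
  induction x generalizing t with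
  | nil => simp at ht
  | cons k x ih =>
    cases t with
    | zero => rw [List.take_zero, len_cons]; have : len [] = 0 := rfl; omega
    | succ t =>
      rw [List.take_succ_cons, len_cons, len_cons]
      have := ih t (by simpa using ht)
      omega

lemma len_take_pos (x : List (Fin 3)) (t : ℕ) (ht : 1 ≤ t) (ht2 : t < x.length) :
    0 < len (x.take t) := by
  cases x with
  | nil => simp at ht2
  | cons k x =>
    cases t with
    | zero => omega
    | succ t => rw [List.take_succ_cons, len_cons]; omega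

lemma X_eq (n : ℕ) (hn : 1 ≤ n) : X 3 n = ((XF n : Finset (List (Fin 3))) : Set _) := by
  ext x
  simp only [X, Set.mem_ofPred_eq, Finset.mem_coe, mem_XF, vertex_eq]
  constructor
  · rintro ⟨_, h, _⟩
    rw [List.take_length] at h
    omega
  · intro h
    refine ⟨?_, ?_, ?_⟩
    · rintro rfl
      have : len [] = 0 := rfl
      omega
    · rw [List.take_length]; omega
    · intro t ht1 ht2
      have h1 := len_take_lt x t ht2
      have h2 := len_take_pos x t ht1 ht2
      constructor <;> omega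

lemma prod_eq (n : ℕ) (z : Fin 3 → ℂ) : ∀ (x : List (Fin 3)) (u : ℕ), x ≠ [] → u + len x = n →
    (∏ t ∈ Finset.Ico 1 x.length, ((wt n (u + len (x.take t)) : ℝ) : ℂ)) * (x.map z).prod =
      wtl z (fun p => (wt n p : ℂ)) u x := by
  intro x
  induction x with
  | nil => intro u h; exact absurd rfl h
  | cons k x ih =>
    intro u _ hu
    rw [len_cons] at hu
    by_cases hx : x = []
    · subst hx
      have e0 : len [] = 0 := rfl
      rw [e0] at hu
      simp only [List.length_cons, List.length_nil, zero_add, Finset.Ico_self, Finset.prod_empty,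
        List.map_cons, List.map_nil, List.prod_cons, List.prod_nil, mul_one, one_mul, wtl]
      have : wt n (u + (k.1 + 1)) = 1 := by unfold wt; rw [if_neg (by omega)]
      rw [this]; simp
    · have h1 := ih (u + (k.1 + 1)) hx (by omega)
      rw [wtl, ← h1, List.length_cons, List.map_cons, List.prod_cons]
      have hlen : 1 ≤ x.length := by
        have := List.length_pos_iff.mpr hx
        omega
      have e1 : ∏ t ∈ Finset.Ico 1 (x.length + 1), ((wt n (u + len ((k :: x).take t)) : ℝ) : ℂ) =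
          ((wt n (u + (k.1 + 1)) : ℝ) : ℂ) *
            ∏ t ∈ Finset.Ico 1 x.length, ((wt n (u + (k.1 + 1) + len (x.take t)) : ℝ) : ℂ) := by
        rw [Finset.prod_eq_prod_Ico_succ_bot (by omega : 1 < x.length + 1)]
        congr 1
        rw [← Finset.prod_Ico_add' (fun t => ((wt n (u + len ((k :: x).take t)) : ℝ) : ℂ)) 1
          x.length 1]
        apply Finset.prod_congr rfl
        intro t _
        rw [List.take_succ_cons, len_cons, ← Nat.add_assoc u]
      rw [e1]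
      ring

lemma h_eq (n : ℕ) (z : Fin 3 → ℂ) (x : List (Fin 3)) (hn : 1 ≤ n) (hx : len x = n) :
    h n z x = wtl z (fun p => (wt n p : ℂ)) 0 x := by
  have hx0 : x ≠ [] := by
    rintro rfl
    have : len [] = 0 := rfl
    omega
  rw [← prod_eq n z x 0 hx0 (by omega)]
  unfold h
  congr 1
  apply Finset.prod_congr rfl
  intro t ht
  rw [Finset.mem_Ico] at ht
  have h1 := len_take_lt x t ht.2
  rw [vertex_eq, Nat.zero_add]
  unfold wt
  rw [if_pos (by omega)]
  push_cast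
  rw [one_div]
  congr 1
  ring

lemma norm_wtl (n : ℕ) (z : Fin 3 → ℂ) : ∀ (x : List (Fin 3)) (u : ℕ),
    ‖wtl z (fun p => (wt n p : ℂ)) u x‖ = wtl (fun k => ‖z k‖) (wt n) u x := by
  intro x
  induction x with
  | nil => intro u; simp [wtl]
  | cons k x ih =>
    intro u
    rw [wtl, wtl, norm_mul, norm_mul, ih, Complex.norm_real, Real.norm_of_nonneg (wt_nonneg _ _)]

lemma S_eq (n : ℕ) (hn : 1 ≤ n) (z : Fin 3 → ℂ) : S n z = fC z (wt n) n 0 := by
  unfold S fC
  rw [X_eq n hn, finsum_mem_coe_finset, ← sum_XF]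
  apply Finset.sum_congr rfl
  intro x hx
  exact h_eq n z x hn ((mem_XF n x).mp hx)

lemma A_eq (n : ℕ) (hn : 1 ≤ n) (z : Fin 3 → ℂ) : A n z = fR z (wt n) n 0 := by
  unfold A fR
  rw [X_eq n hn, finsum_mem_coe_finset, ← sum_XF]
  apply Finset.sum_congr rfl
  intro x hx
  rw [h_eq n z x hn ((mem_XF n x).mp hx), norm_wtl]

lemma wt_pos (n p : ℕ) (hp : 1 ≤ p) : 0 < wt n p := by
  unfold wt
  split_ifs with h
  · have h1 : (p : ℝ) < n := by exact_mod_cast h
    have h2 : (0 : ℝ) < (n : ℝ) - p := by linarith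
    have h3 : (0 : ℝ) < p := by exact_mod_cast hp
    positivity
  · norm_num

lemma wtl_nonneg (r : Fin 3 → ℝ) (hr : ∀ k, 0 ≤ r k) (n : ℕ) : ∀ (x : List (Fin 3)) (u : ℕ),
    0 ≤ wtl r (wt n) u x := by
  intro x
  induction x with
  | nil => intro u; exact zero_le_one
  | cons k x ih => intro u; exact mul_nonneg (mul_nonneg (hr k) (wt_nonneg _ _)) (ih _)

/-- positivity of the absolute sum -/
lemma fR_pos (n : ℕ) (z : Fin 3 → ℂ) (h1 : z 1 ≠ 0) (h2 : 2 ∣ n) :
    0 < fR z (wt n) n 0 := by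
  obtain ⟨m, rfl⟩ := h2
  have hpos : ∀ (m u : ℕ), 0 < wtl (fun k => ‖z k‖) (wt (2 * (m + 0) + 0)) u [] := by
    intro m u; exact one_pos
  have key : ∀ (n m u : ℕ), 0 < wtl (fun k => ‖z k‖) (wt n) u (List.replicate m (1 : Fin 3)) := by
    intro n m
    induction m with
    | zero => intro u; exact one_pos
    | succ m ih =>
      intro u
      rw [List.replicate_succ]
      exact mul_pos (mul_pos (norm_pos_iff.mpr h1) (wt_pos _ _ (by omega))) (ih _)
  have hlen : ∀ m : ℕ, len (List.replicate m (1 : Fin 3)) = 2 * m := by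
    intro m
    induction m with
    | zero => rfl
    | succ m ih =>
      rw [List.replicate_succ, len_cons, ih]
      have : ((1 : Fin 3) : ℕ) = 1 := rfl
      omega
  unfold fR
  rw [← sum_XF]
  apply Finset.sum_pos' (fun x _ => wtl_nonneg _ (fun k => norm_nonneg _) _ x 0)
  exact ⟨List.replicate m (1 : Fin 3), (mem_XF _ _).mpr (hlen m), key _ m 0⟩

/-- All `z` for which `z₂³` and `z₃²` are not on a common ray (starting at `0`) belong to `W`. -/
lemma mem_W (z : Fin 3 → ℂ) (hz : ¬ SameRay ℝ (z 1 ^ 3) (z 2 ^ 2)) : z ∈ W 3 := by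
  rintro ⟨C, hC⟩
  obtain ⟨δ, hδ, hδ2, hch⟩ := chain z hz
  have hz1 : z 1 ≠ 0 := by
    intro h; apply hz; rw [h]; simp
  set C' : ℝ := max C 1 with hC'
  have hC'1 : 1 ≤ C' := le_max_right _ _
  obtain ⟨M, hM⟩ := exists_pow_lt_of_lt_one (show (0 : ℝ) < 1 / C' by positivity)
    (show 1 - δ < 1 by linarith)
  obtain ⟨n, hn1, hn2, hn⟩ := hch M
  have hpos := fR_pos n z hz1 hn2
  have h1 := hC n
  rw [A_eq n hn1, S_eq n hn1] at h1
  have h2 : C * ‖fC z (wt n) n 0‖ ≤ C' * ((1 - δ) ^ M * fR z (wt n) n 0) :=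
    mul_le_mul (le_max_left _ _) hn (norm_nonneg _) (by linarith)
  have h3 : C' * ((1 - δ) ^ M * fR z (wt n) n 0) < fR z (wt n) n 0 := by
    have h4 : C' * (1 - δ) ^ M < 1 := by
      rw [lt_div_iff₀ (by linarith)] at hM
      linarith
    calc C' * ((1 - δ) ^ M * fR z (wt n) n 0) = (C' * (1 - δ) ^ M) * fR z (wt n) n 0 := by ring
      _ < 1 * fR z (wt n) n 0 := mul_lt_mul_of_pos_right h4 hpos
      _ = _ := one_mul _
  linarith

/-- For `m = 3` the set `W` has positive Lebesgue measure; more precisely it contains every `z`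
for which `z₂³` and `z₃²` do not lie on a common ray. -/
theorem result : (∃ m : ℕ, 1 ≤ m ∧ 0 < MeasureTheory.volume (W m)) ∧
    ∀ z : Fin 3 → ℂ, ¬ SameRay ℝ (z 1 ^ 3) (z 2 ^ 2) → z ∈ W 3 := by
  refine ⟨⟨3, by norm_num, ?_⟩, mem_W⟩
  set U : Set (Fin 3 → ℂ) := {z | 0 < (z 1 ^ 3 * (starRingEnd ℂ) (z 2 ^ 2)).im} with hU
  have hopen : IsOpen U := by
    apply isOpen_lt continuous_const
    apply Complex.continuous_im.comp
    apply Continuous.mul
    · exact (continuous_apply 1).pow 3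
    · exact Complex.continuous_conj.comp ((continuous_apply 2).pow 2)
  have hne : U.Nonempty := by
    refine ⟨fun k => if k = 1 then -Complex.I else 1, ?_⟩
    show 0 < ((if (1 : Fin 3) = 1 then -Complex.I else 1) ^ 3 *
      (starRingEnd ℂ) ((if (2 : Fin 3) = 1 then -Complex.I else 1) ^ 2)).im
    have h3 : (-Complex.I) ^ 3 = Complex.I := by
      have : (-Complex.I) ^ 3 = -(Complex.I ^ 2) * Complex.I := by ring
      rw [this, Complex.I_sq]; ring
    rw [if_pos rfl, if_neg (by decide), h3]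
    simp
  have hsub : U ⊆ W 3 := by
    intro z hz
    apply mem_W
    intro hs
    obtain ⟨v, a, b, _, _, _, h1, h2⟩ := hs.exists_eq_smul
    rw [hU, Set.mem_ofPred_eq, h1, h2] at hz
    have : (a • v * (starRingEnd ℂ) (b • v)).im = 0 := by
      simp only [Complex.real_smul, map_mul, Complex.conj_ofReal]
      have e : (a : ℂ) * v * ((b : ℂ) * (starRingEnd ℂ) v) = ((a * b * Complex.normSq v : ℝ) : ℂ) := by
        rw [mul_mul_mul_comm, Complex.mul_conj]; push_cast; ring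
      rw [e, Complex.ofReal_im]
    rw [this] at hz
    exact lt_irrefl _ hz
  exact (hopen.measure_pos MeasureTheory.volume hne).trans_le (MeasureTheory.measure_mono hsub)

end Pool.Agent.Results.MP_269329_co.SignedWalks
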